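import Pool.Agent.W792.WA.Stm5
import Pool.Agent.W335.LLCay

/-!
# Project WA: the Cauchy average of a bounded analytic function of the lower half plane (CAUI)
-/

set_option autoImplicit false

namespace Pool.Agent.W616.WA

open MeasureTheory Filter Topology Pool.Agent.W792.LL Pool.Agent.W792.WA

/-- the geometric function of the Cayley transform has mean zero -/
lemma mean_zero (r : ℂ) (hr : ‖r‖ < 1) :
    Integrable (fun a : ℝ => cay a * (1 - r * cay a)⁻¹) (ProbabilityTheory.cauchyMeasure 0 1) ∧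
    ∫ a, cay a * (1 - r * cay a)⁻¹ ∂(ProbabilityTheory.cauchyMeasure 0 1) = 0 := by
  have hn : ∀ a : ℝ, ‖r * cay a‖ = ‖r‖ := fun a => by
    rw [norm_mul, Pool.Agent.W335.LLCay.norm_cay, mul_one]
  have hne : ∀ a : ℝ, 1 - r * cay a ≠ 0 := by
    intro a h
    have h1 : r * cay a = 1 := by linear_combination -h
    have h2 := hn a
    rw [h1, norm_one] at h2
    linarith
  have hc := Pool.Agent.W335.LLCay.cont_cay
  have hterm : ∀ k : ℕ, Integrable (fun a : ℝ => r ^ k * cay a ^ (k + 1))
      (ProbabilityTheory.cauchyMeasure 0 1) := by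
    intro k
    refine Integrable.of_bound ((continuous_const.mul (hc.pow _)).aestronglyMeasurable)
      (‖r‖ ^ k) (ae_of_all _ fun a => ?_)
    rw [norm_mul, norm_pow, norm_pow, Pool.Agent.W335.LLCay.norm_cay, one_pow, mul_one]
  have hnorm : ∀ (k : ℕ) (a : ℝ), ‖r ^ k * cay a ^ (k + 1)‖ = ‖r‖ ^ k := by
    intro k a
    rw [norm_mul, norm_pow, norm_pow, Pool.Agent.W335.LLCay.norm_cay, one_pow, mul_one]
  have hsum : Summable fun k : ℕ => ∫ a, ‖r ^ k * cay a ^ (k + 1)‖
      ∂(ProbabilityTheory.cauchyMeasure 0 1) := by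
    have : (fun k : ℕ => ∫ a, ‖r ^ k * cay a ^ (k + 1)‖
        ∂(ProbabilityTheory.cauchyMeasure 0 1)) = fun k => ‖r‖ ^ k := by
      funext k
      simp only [hnorm]
      rw [integral_const]
      simp
    rw [this]
    exact summable_geometric_of_lt_one (norm_nonneg _) hr
  have hs := hasSum_integral_of_summable_integral_norm hterm hsum
  have hval : ∀ a : ℝ, ∑' k : ℕ, r ^ k * cay a ^ (k + 1) = cay a * (1 - r * cay a)⁻¹ := by
    intro a
    have h1 : ‖r * cay a‖ < 1 := by rw [hn a]; exact hr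
    rw [← tsum_geometric_of_norm_lt_one h1, ← tsum_mul_left]
    refine tsum_congr (fun k => ?_)
    rw [mul_pow, pow_succ]
    ring
  have hzero : ∀ k : ℕ, ∫ a, r ^ k * cay a ^ (k + 1) ∂(ProbabilityTheory.cauchyMeasure 0 1) = 0 := by
    intro k
    rw [integral_const_mul, Pool.Agent.W335.LLCay.moment (k + 1) (Nat.succ_pos k), mul_zero]
  constructor
  · refine Integrable.of_bound (((hc.mul (Continuous.inv₀
      (continuous_const.sub (continuous_const.mul hc)) hne))).aestronglyMeasurable)
      ((1 - ‖r‖)⁻¹) (ae_of_all _ fun a => ?_)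
    rw [norm_mul, Pool.Agent.W335.LLCay.norm_cay, one_mul, norm_inv]
    refine inv_anti₀ (by linarith) ?_
    have := norm_sub_norm_le (1 : ℂ) (r * cay a)
    rw [norm_one, hn a] at this
    exact this
  · simp only [hzero] at hs
    simp only [hval] at hs
    exact hs.unique hasSum_zero

/-- comparison of the two denominators -/
lemma den_lt (γ : ℝ) (x s : ℂ) (hγ : 0 < γ) (hx : x.im < 0) (hs : ‖s‖ < 1) :
    ‖(x - Complex.I) - s * (x + Complex.I) + γ * Complex.I * (1 - s)‖ <
      ‖(x - Complex.I) - s * (x + Complex.I) - γ * Complex.I * (1 - s)‖ := by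
  have h1 : s.re ^ 2 + s.im ^ 2 < 1 := by
    have : ‖s‖ ^ 2 < 1 := by
      have := norm_nonneg s
      nlinarith
    rw [← Complex.normSq_eq_norm_sq, Complex.normSq_apply] at this
    nlinarith
  rw [← sq_lt_sq₀ (norm_nonneg _) (norm_nonneg _), ← Complex.normSq_eq_norm_sq,
    ← Complex.normSq_eq_norm_sq]
  have h2 : Complex.normSq ((x - Complex.I) - s * (x + Complex.I) - γ * Complex.I * (1 - s)) -
      Complex.normSq ((x - Complex.I) - s * (x + Complex.I) + γ * Complex.I * (1 - s)) =
      4 * γ * ((1 - (s.re ^ 2 + s.im ^ 2)) - ((1 - s.re) ^ 2 + s.im ^ 2) * x.im) := by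
    simp [Complex.normSq_apply]
    ring
  have h3 : 0 < 4 * γ * ((1 - (s.re ^ 2 + s.im ^ 2)) - ((1 - s.re) ^ 2 + s.im ^ 2) * x.im) := by
    have h4 : 0 ≤ ((1 - s.re) ^ 2 + s.im ^ 2) * (-x.im) :=
      mul_nonneg (by positivity) (by linarith)
    have h5 : 0 < (1 - (s.re ^ 2 + s.im ^ 2)) - ((1 - s.re) ^ 2 + s.im ^ 2) * x.im := by
      linarith
    positivity
  linarith

/-- CAUI -/
theorem main : S_CAUI := by
  intro γ x s hγ hx hs
  have hlt := den_lt γ x s hγ hx hs
  set Q : ℂ := (x - Complex.I) - s * (x + Complex.I) - γ * Complex.I * (1 - s) with hQdef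
  set Q' : ℂ := (x - Complex.I) - s * (x + Complex.I) + γ * Complex.I * (1 - s) with hQ'def
  have hQpos : 0 < ‖Q‖ := lt_of_le_of_lt (norm_nonneg _) hlt
  have hQ : Q ≠ 0 := norm_pos_iff.1 hQpos
  have hr : ‖Q' / Q‖ < 1 := by
    rw [norm_div, div_lt_one hQpos]
    exact hlt
  obtain ⟨hint, hzero⟩ := mean_zero (Q' / Q) hr
  have hpt : ∀ a : ℝ, cayx x (γ * a) / (1 - cayx x (γ * a) * s) =
      (x + Complex.I - γ * Complex.I) / Q +
        ((x + Complex.I - γ * Complex.I) * Q' - (x + Complex.I + γ * Complex.I) * Q) / Q ^ 2 *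
          (cay a * (1 - Q' / Q * cay a)⁻¹) := by
    intro a
    have hA : (a : ℂ) - Complex.I ≠ 0 := Pool.Agent.W335.LLCay.sub_ne a
    have hB : x + ((γ * a : ℝ) : ℂ) - Complex.I ≠ 0 := by
      intro h
      have := congrArg Complex.im h
      simp at this
      linarith
    have hD : 1 - Q' / Q * cay a ≠ 0 := by
      intro h
      have h1 : Q' / Q * cay a = 1 := by linear_combination -h
      have h2 : ‖Q' / Q * cay a‖ = ‖Q' / Q‖ := by
        rw [norm_mul, Pool.Agent.W335.LLCay.norm_cay, mul_one]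
      rw [h1, norm_one] at h2
      linarith
    have hE : Q - Q' * cay a ≠ 0 := by
      intro h
      apply hD
      have : 1 - Q' / Q * cay a = (Q - Q' * cay a) / Q := by
        field_simp
      rw [this, h, zero_div]
    have hT : (Q - Q' * cay a) * ((a : ℂ) - Complex.I) =
        -2 * Complex.I * ((x + ((γ * a : ℝ) : ℂ) - Complex.I) -
          s * (x + ((γ * a : ℝ) : ℂ) + Complex.I)) := by
      unfold cay
      rw [sub_mul, mul_assoc, div_mul_cancel₀ _ hA, hQdef, hQ'def]
      push_cast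
      ring
    have hT0 : (x + ((γ * a : ℝ) : ℂ) - Complex.I) -
          s * (x + ((γ * a : ℝ) : ℂ) + Complex.I) ≠ 0 := by
      intro h
      rw [h, mul_zero] at hT
      rcases mul_eq_zero.1 hT with h1 | h1
      · exact hE h1
      · exact hA h1
    have hL : cayx x (γ * a) / (1 - cayx x (γ * a) * s) =
        (x + ((γ * a : ℝ) : ℂ) + Complex.I) / ((x + ((γ * a : ℝ) : ℂ) - Complex.I) -
          s * (x + ((γ * a : ℝ) : ℂ) + Complex.I)) := by
      unfold cayx
      have h1 : 1 - (x + ((γ * a : ℝ) : ℂ) + Complex.I) / (x + ((γ * a : ℝ) : ℂ) - Complex.I) * s =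
          ((x + ((γ * a : ℝ) : ℂ) - Complex.I) - s * (x + ((γ * a : ℝ) : ℂ) + Complex.I)) /
            (x + ((γ * a : ℝ) : ℂ) - Complex.I) := by
        field_simp
      rw [h1, div_div_div_cancel_right₀ hB]
    have hR : (x + Complex.I - γ * Complex.I) / Q +
        ((x + Complex.I - γ * Complex.I) * Q' - (x + Complex.I + γ * Complex.I) * Q) / Q ^ 2 *
          (cay a * (1 - Q' / Q * cay a)⁻¹) =
        ((x + Complex.I - γ * Complex.I) - (x + Complex.I + γ * Complex.I) * cay a) /
          (Q - Q' * cay a) := by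
      have h1 : (1 - Q' / Q * cay a)⁻¹ = Q / (Q - Q' * cay a) := by
        have : 1 - Q' / Q * cay a = (Q - Q' * cay a) / Q := by
          field_simp
        rw [this, inv_div]
      rw [h1]
      field_simp
      ring
    rw [hL, hR, div_eq_div_iff hT0 hE]
    have hN : ((x + Complex.I - γ * Complex.I) - (x + Complex.I + γ * Complex.I) * cay a) *
        ((a : ℂ) - Complex.I) = -2 * Complex.I * (x + ((γ * a : ℝ) : ℂ) + Complex.I) := by
      unfold cay
      rw [sub_mul, mul_assoc, div_mul_cancel₀ _ hA]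
      push_cast
      ring
    have : ((x + ((γ * a : ℝ) : ℂ) + Complex.I) * (Q - Q' * cay a)) * ((a : ℂ) - Complex.I) =
        (((x + Complex.I - γ * Complex.I) - (x + Complex.I + γ * Complex.I) * cay a) *
        ((x + ((γ * a : ℝ) : ℂ) - Complex.I) - s * (x + ((γ * a : ℝ) : ℂ) + Complex.I))) *
        ((a : ℂ) - Complex.I) := by
      calc ((x + ((γ * a : ℝ) : ℂ) + Complex.I) * (Q - Q' * cay a)) * ((a : ℂ) - Complex.I)
          = (x + ((γ * a : ℝ) : ℂ) + Complex.I) * ((Q - Q' * cay a) * ((a : ℂ) - Complex.I)) := by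
            ring
        _ = (((x + Complex.I - γ * Complex.I) - (x + Complex.I + γ * Complex.I) * cay a) *
              ((a : ℂ) - Complex.I)) *
              ((x + ((γ * a : ℝ) : ℂ) - Complex.I) -
                s * (x + ((γ * a : ℝ) : ℂ) + Complex.I)) := by
            rw [hT, hN]
            ring
        _ = _ := by ring
    exact mul_right_cancel₀ hA this
  simp only [hpt]
  rw [integral_add (integrable_const _) (hint.const_mul _), integral_const, integral_const_mul,
    hzero, mul_zero, add_zero]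
  have hB0 : x - γ * Complex.I + ((0 : ℝ) : ℂ) - Complex.I ≠ 0 := by
    intro h
    have := congrArg Complex.im h
    simp at this
    linarith
  unfold cayx
  have h1 : 1 - (x - γ * Complex.I + ((0 : ℝ) : ℂ) + Complex.I) /
      (x - γ * Complex.I + ((0 : ℝ) : ℂ) - Complex.I) * s =
      Q / (x - γ * Complex.I + ((0 : ℝ) : ℂ) - Complex.I) := by
    rw [eq_div_iff hB0, sub_mul, one_mul, mul_right_comm, div_mul_cancel₀ _ hB0, hQdef]
    push_cast
    ring
  rw [h1, div_div_div_cancel_right₀ hB0]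
  simp
  ring

end Pool.Agent.W616.WA
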